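import Mathlib

set_option autoImplicit false

/-!
# Quadratic character sums: complete cancellation over a period
-/

namespace Pool.Agent.HyperWeil

open Finset

/-- The Jacobi symbol, extended by zero to even moduli. -/
noncomputable def psi (d : ℤ) (n : ℕ) : ℤ := if n % 2 = 1 then jacobiSym d n else 0

lemma psi_one (d : ℤ) : psi d 1 = 1 := by simp [psi, jacobiSym.one_right]

lemma psi_mul_right (d : ℤ) (a b : ℕ) : psi d (a * b) = psi d a * psi d b := by
  unfold psi
  by_cases ha : a % 2 = 1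
  · by_cases hb : b % 2 = 1
    · have hab : (a * b) % 2 = 1 := by rw [Nat.mul_mod, ha, hb]
      rw [if_pos ha, if_pos hb, if_pos hab, jacobiSym.mul_right' d (by omega) (by omega)]
    · have hab : ¬ (a * b) % 2 = 1 := by
        have : b % 2 = 0 := by omega
        rw [Nat.mul_mod, this]; simp
      rw [if_neg hb, if_neg hab, mul_zero]
  · have hab : ¬ (a * b) % 2 = 1 := by
      have : a % 2 = 0 := by omega
      rw [Nat.mul_mod, this]; simp
    rw [if_neg ha, if_neg hab, zero_mul]

lemma psi_mul_left (d e : ℤ) (n : ℕ) : psi (d * e) n = psi d n * psi e n := by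
  unfold psi
  split_ifs
  · exact jacobiSym.mul_left _ _ _
  · simp

lemma psi_trichotomy (d : ℤ) (n : ℕ) : psi d n = 0 ∨ psi d n = 1 ∨ psi d n = -1 := by
  unfold psi
  split_ifs
  · exact jacobiSym.trichotomy _ _
  · simp

lemma abs_psi_le (d : ℤ) (n : ℕ) : |psi d n| ≤ 1 := by
  rcases psi_trichotomy d n with h | h | h <;> rw [h] <;> simp

lemma psi_prod {ι : Type*} (d : ℤ) (s : Finset ι) (g : ι → ℕ) :
    psi d (∏ i ∈ s, g i) = ∏ i ∈ s, psi d (g i) := by
  classical
  induction s using Finset.induction_on with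
  | empty => simp [psi_one]
  | insert a s ha ih => rw [Finset.prod_insert ha, Finset.prod_insert ha, psi_mul_right, ih]

lemma psi_add_period {d : ℤ} (n : ℕ) : psi d (n + 4 * d.natAbs) = psi d n := by
  unfold psi
  have h1 : (n + 4 * d.natAbs) % 2 = n % 2 := by omega
  rw [h1]
  split_ifs with h
  · have ho : Odd n := Nat.odd_iff.mpr h
    have ho' : Odd (n + 4 * d.natAbs) := by rw [Nat.odd_iff]; omega
    rw [jacobiSym.mod_right d ho', jacobiSym.mod_right d ho, Nat.add_mod_right]
  · rfl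

/-- A nonsquare natural number has a prime with odd valuation. -/
lemma exists_odd_factorization {n : ℕ} (hn : n ≠ 0) (h : ¬ IsSquare n) :
    ∃ r : ℕ, r.Prime ∧ Odd (n.factorization r) := by
  obtain ⟨a, b, hab, hsq⟩ := Nat.sq_mul_squarefree n
  have ha0 : a ≠ 0 := hsq.ne_zero
  have hb0 : b ≠ 0 := by rintro rfl; simp at hab; exact hn hab.symm
  have ha1 : a ≠ 1 := by
    rintro rfl
    exact h ⟨b, by rw [← hab]; ring⟩
  obtain ⟨r, hr, hra⟩ := Nat.exists_prime_and_dvd ha1
  refine ⟨r, hr, ?_⟩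
  rw [← hab, Nat.factorization_mul (pow_ne_zero _ hb0) ha0, Nat.factorization_pow]
  have h1 : a.factorization r = 1 := Nat.factorization_eq_one_of_squarefree hsq hr hra
  simp only [Finsupp.coe_add, Finsupp.coe_smul, Pi.add_apply, Pi.smul_apply, smul_eq_mul, h1]
  exact ⟨b.factorization r, by ring⟩

/-- A natural number all of whose odd primes have even valuation is a square or twice a square. -/
lemma square_or_two_square {n : ℕ} (hn : n ≠ 0)
    (h : ∀ r : ℕ, r.Prime → r ≠ 2 → ¬ Odd (n.factorization r)) :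
    ∃ b : ℕ, b ≠ 0 ∧ (n = b ^ 2 ∨ n = 2 * b ^ 2) := by
  obtain ⟨a, b, hab, hsq⟩ := Nat.sq_mul_squarefree n
  have ha0 : a ≠ 0 := hsq.ne_zero
  have hb0 : b ≠ 0 := by rintro rfl; simp at hab; exact hn hab.symm
  refine ⟨b, hb0, ?_⟩
  have key : ∀ r : ℕ, r.Prime → r ∣ a → r = 2 := by
    intro r hr hra
    by_contra hr2
    apply h r hr hr2
    rw [← hab, Nat.factorization_mul (pow_ne_zero _ hb0) ha0, Nat.factorization_pow]
    have h1 : a.factorization r = 1 := Nat.factorization_eq_one_of_squarefree hsq hr hra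
    simp only [Finsupp.coe_add, Finsupp.coe_smul, Pi.add_apply, Pi.smul_apply, smul_eq_mul, h1]
    exact ⟨b.factorization r, by ring⟩
  by_cases ha1 : a = 1
  · left; rw [← hab, ha1, mul_one]
  · right
    obtain ⟨r, hr, hra⟩ := Nat.exists_prime_and_dvd ha1
    obtain rfl := key r hr hra
    obtain ⟨a', rfl⟩ := hra
    have ha' : a' = 1 := by
      by_contra hne
      obtain ⟨s, hs, hsa⟩ := Nat.exists_prime_and_dvd hne
      obtain rfl := key s hs (hsa.mul_left 2)
      have := hsq 2 (Nat.mul_dvd_mul_left 2 hsa)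
      exact absurd (Nat.isUnit_iff.mp this) (by norm_num)
    rw [← hab, ha']; ring

lemma exists_nonresidue {r : ℕ} (hr : r.Prime) (hr2 : r ≠ 2) :
    ∃ u : ℕ, jacobiSym (u : ℤ) r = -1 := by
  have : Fact r.Prime := ⟨hr⟩
  have hF : ringChar (ZMod r) ≠ 2 := by rw [ZMod.ringChar_zmod_n]; exact hr2
  obtain ⟨a, ha⟩ := quadraticChar_exists_neg_one hF
  refine ⟨a.val, ?_⟩
  rw [← jacobiSym.legendreSym.to_jacobiSym]
  unfold legendreSym
  simpa using ha

/-- For odd nonsquare `n` some `d` has Jacobi symbol `-1`. -/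
lemma exists_left_neg_one {n : ℕ} (hn : Odd n) (h : ¬ IsSquare n) :
    ∃ d : ℕ, jacobiSym (d : ℤ) n = -1 := by
  have hn0 : n ≠ 0 := hn.pos.ne'
  obtain ⟨r, hr, hodd⟩ := exists_odd_factorization hn0 h
  have hrn : r ∣ n := by
    by_contra hh
    rw [Nat.factorization_eq_zero_of_not_dvd hh] at hodd
    exact absurd hodd (by decide)
  have hr2 : r ≠ 2 := by
    rintro rfl
    rw [Nat.odd_iff] at hn
    omega
  obtain ⟨u, hu⟩ := exists_nonresidue hr hr2
  have hcop : Nat.Coprime r (n / r ^ n.factorization r) := Nat.coprime_ordCompl hr hn0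
  obtain ⟨d, hd1, hd2⟩ := Nat.chineseRemainder hcop u 1
  refine ⟨d, ?_⟩
  have hsplit : n = r ^ n.factorization r * (n / r ^ n.factorization r) :=
    (Nat.ordProj_mul_ordCompl_eq_self n r).symm
  have hc0 : n / r ^ n.factorization r ≠ 0 := (Nat.ordCompl_pos r hn0).ne'
  conv_lhs => rw [hsplit]
  rw [jacobiSym.mul_right' _ (pow_ne_zero _ hr.ne_zero) hc0, jacobiSym.pow_right]
  have h1 : jacobiSym (d : ℤ) r = -1 := by
    rw [← hu]
    apply jacobiSym.mod_left'
    exact_mod_cast hd1
  have h2 : jacobiSym (d : ℤ) (n / r ^ n.factorization r) = 1 := by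
    rw [← jacobiSym.one_left (n / r ^ n.factorization r)]
    apply jacobiSym.mod_left'
    exact_mod_cast hd2
  rw [h1, h2, hodd.neg_one_pow, mul_one]

/-- For nonsquare `m ≠ 0` some odd `n` has Jacobi symbol `-1`. -/
lemma exists_right_neg_one {m : ℤ} (hm : m ≠ 0) (h : ¬ IsSquare m) :
    ∃ n : ℕ, n % 2 = 1 ∧ jacobiSym m n = -1 := by
  set M := m.natAbs with hM
  have hM0 : M ≠ 0 := Int.natAbs_ne_zero.mpr hm
  by_cases hcase : ∃ r : ℕ, r.Prime ∧ r ≠ 2 ∧ Odd (M.factorization r)
  · obtain ⟨r, hr, hr2, hodd⟩ := hcase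
    obtain ⟨u, hu⟩ := exists_nonresidue hr hr2
    set v := M.factorization r with hv
    set M' := M / r ^ v with hM'
    have hcop : Nat.Coprime r M' := Nat.coprime_ordCompl hr hM0
    have hsplit : M = r ^ v * M' := (Nat.ordProj_mul_ordCompl_eq_self M r).symm
    have hM'0 : M' ≠ 0 := (Nat.ordCompl_pos r hM0).ne'
    have hcop8 : Nat.Coprime r (8 * M') := by
      refine Nat.Coprime.mul_right ?_ hcop
      have : Nat.Coprime r 2 := (Nat.coprime_primes hr Nat.prime_two).mpr hr2
      exact (Nat.Coprime.pow_right 3 this)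
    obtain ⟨n, hn1, hn2⟩ := Nat.chineseRemainder hcop8 u 1
    have hn8 : n % 8 = 1 := by
      have : n ≡ 1 [MOD 8] := hn2.of_mul_right M'
      simpa [Nat.ModEq] using this
    have hno : Odd n := by rw [Nat.odd_iff]; omega
    refine ⟨n, by omega, ?_⟩
    obtain ⟨m', hm', hm'abs⟩ : ∃ m' : ℤ, m = r ^ v * m' ∧ m'.natAbs = M' := by
      rcases Int.natAbs_eq m with h1 | h1
      · refine ⟨M', ?_, by simp⟩
        rw [h1, ← hM, hsplit]; push_cast; rfl
      · refine ⟨-M', ?_, by simp⟩
        rw [h1, ← hM, hsplit]; push_cast; ring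
    rw [hm', jacobiSym.mul_left, jacobiSym.pow_left]
    have h1 : jacobiSym (r : ℤ) n = -1 := by
      rw [← jacobiSym.quadratic_reciprocity_one_mod_four (a := n) (b := r) (by omega)
        (hr.odd_of_ne_two hr2), ← hu]
      apply jacobiSym.mod_left'
      exact_mod_cast hn1
    have h2 : jacobiSym m' n = 1 := by
      rw [jacobiSym.mod_right m' hno, hm'abs]
      have h3 : n % (4 * M') = 1 % (4 * M') := by
        have : n ≡ 1 [MOD 4 * M'] := hn2.of_dvd ⟨2, by ring⟩
        exact this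
      have h4 := jacobiSym.mod_right m' (b := 1) odd_one
      rw [hm'abs] at h4
      rw [h3, ← h4, jacobiSym.one_right]
    rw [h1, h2, hodd.neg_one_pow, mul_one]
  · push Not at hcase
    obtain ⟨b, hb0, hb⟩ := square_or_two_square hM0 hcase
    rcases hb with hb | hb
    · -- `m = - b^2`
      have hmb : m = -(b : ℤ) ^ 2 := by
        rcases Int.natAbs_eq m with h1 | h1
        · exfalso; apply h
          rw [h1, ← hM, hb]
          exact ⟨(b : ℤ), by push_cast; ring⟩
        · rw [h1, ← hM, hb]; push_cast; ring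
      -- choose a prime `n ≡ 3 mod 4`, larger than `b`
      have hu : IsUnit (3 : ZMod 4) := by decide
      obtain ⟨n, hnb, hnp, hn3⟩ := Nat.forall_exists_prime_gt_and_eq_mod hu b
      have hn4 : n % 4 = 3 := by
        have : (n : ZMod 4) = ((3 : ℕ) : ZMod 4) := by rw [hn3]; rfl
        rw [ZMod.natCast_eq_natCast_iff'] at this
        simpa using this
      have hno : Odd n := by rw [Nat.odd_iff]; omega
      refine ⟨n, by omega, ?_⟩
      have hcop : (b : ℤ).gcd n = 1 := by
        rw [Int.gcd_natCast_natCast]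
        exact Nat.Coprime.symm ((Nat.Prime.coprime_iff_not_dvd hnp).mpr fun hd =>
          absurd (Nat.le_of_dvd (Nat.pos_of_ne_zero hb0) hd) (by omega))
      rw [hmb, show -(b : ℤ) ^ 2 = (-1) * (b : ℤ) ^ 2 by ring, jacobiSym.mul_left,
        jacobiSym.sq_one' hcop, jacobiSym.at_neg_one hno, ZMod.χ₄_nat_three_mod_four hn4, mul_one]
    · have hu : IsUnit (5 : ZMod 8) := by decide
      obtain ⟨n, hnb, hnp, hn5⟩ := Nat.forall_exists_prime_gt_and_eq_mod hu b
      have hn8 : n % 8 = 5 := by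
        have : (n : ZMod 8) = ((5 : ℕ) : ZMod 8) := by rw [hn5]; rfl
        rw [ZMod.natCast_eq_natCast_iff'] at this
        simpa using this
      have hno : Odd n := by rw [Nat.odd_iff]; omega
      refine ⟨n, by omega, ?_⟩
      have hcop : (b : ℤ).gcd n = 1 := by
        rw [Int.gcd_natCast_natCast]
        exact Nat.Coprime.symm ((Nat.Prime.coprime_iff_not_dvd hnp).mpr fun hd =>
          absurd (Nat.le_of_dvd (Nat.pos_of_ne_zero hb0) hd) (by omega))
      have h2 : jacobiSym 2 n = -1 := by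
        rw [jacobiSym.at_two hno, ZMod.χ₈_nat_eq_if_mod_eight]
        rw [if_neg (by omega), if_neg (by omega)]
      rcases Int.natAbs_eq m with h1 | h1
      · rw [h1, ← hM, hb]
        push_cast
        rw [jacobiSym.mul_left, jacobiSym.sq_one' hcop, h2, mul_one]
      · rw [h1, ← hM, hb]
        push_cast
        rw [show -(2 * (b : ℤ) ^ 2) = (-1) * (2 * (b : ℤ) ^ 2) by ring, jacobiSym.mul_left,
          jacobiSym.mul_left, jacobiSym.sq_one' hcop, h2, jacobiSym.at_neg_one hno,
          ZMod.χ₄_nat_one_mod_four (by omega)]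
        norm_num


/-- Sums of a periodic function with zero sum over a period. -/
lemma abs_sum_range_le {g : ℕ → ℤ} {P : ℕ} (hP : 0 < P) (hper : ∀ n, g (n + P) = g n)
    (hzero : ∑ n ∈ range P, g n = 0) (hb : ∀ n, |g n| ≤ 1) (X : ℕ) :
    |∑ n ∈ range X, g n| ≤ P := by
  have key : ∀ k r : ℕ, ∑ n ∈ range (P * k + r), g n = ∑ n ∈ range r, g n := by
    intro k
    induction k with
    | zero => intro r; simp
    | succ k ih =>
      intro r
      rw [show P * (k + 1) + r = P + (P * k + r) by ring, Finset.sum_range_add, hzero, zero_add]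
      rw [← ih r]
      refine Finset.sum_congr rfl fun n _ => ?_
      rw [add_comm P n, hper]
  rw [← Nat.div_add_mod X P, key]
  refine (Finset.abs_sum_le_sum_abs _ _).trans ?_
  refine (Finset.sum_le_sum fun n _ => hb n).trans ?_
  rw [Finset.sum_const, card_range, nsmul_eq_mul, mul_one]
  exact_mod_cast (Nat.mod_lt X hP).le

lemma zero_sum_of_mul {g : ℕ → ℤ} {P a : ℕ} (hP : 0 < P) (hper : ∀ n, g (n + P) = g n)
    (hmul : ∀ n, g (a * n) = -g n) (ha : Nat.Coprime a P) : ∑ n ∈ range P, g n = 0 := by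
  have : NeZero P := ⟨hP.ne'⟩
  have hmod : ∀ n, g (n % P) = g n := by
    intro n
    conv_rhs => rw [← Nat.mod_add_div n P]
    generalize n / P = k
    induction k with
    | zero => simp
    | succ k ih => rw [Nat.mul_succ, ← add_assoc, hper]; exact ih
  have h1 : ∑ n ∈ range P, g n = ∑ x : ZMod P, g x.val := by
    refine Finset.sum_nbij' (fun n => (n : ZMod P)) (fun x => x.val) ?_ ?_ ?_ ?_ ?_
    · intro n _; exact mem_univ _
    · intro x _; exact mem_range.mpr (ZMod.val_lt x)
    · intro n hn; exact ZMod.val_cast_of_lt (mem_range.mp hn)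
    · intro x _; exact ZMod.natCast_zmod_val x
    · intro n hn; rw [ZMod.val_cast_of_lt (mem_range.mp hn)]
  have h2 : ∑ x : ZMod P, g x.val = ∑ x : ZMod P, g (((a : ℕ) : ZMod P) * x).val := by
    have := Equiv.sum_comp (Units.mulLeft (ZMod.unitOfCoprime a ha)) (fun x : ZMod P => g x.val)
    rw [← this]
    rfl
  have h3 : ∀ x : ZMod P, g (((a : ℕ) : ZMod P) * x).val = -g x.val := by
    intro x
    have : (((a : ℕ) : ZMod P) * x).val = (a * x.val) % P := by
      rw [ZMod.val_mul, ZMod.val_natCast, Nat.mod_mul_mod]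
    rw [this, hmod, hmul]
  rw [h1] at *
  have h4 : ∑ x : ZMod P, g x.val = -∑ x : ZMod P, g x.val := by
    conv_lhs => rw [h2]
    rw [← Finset.sum_neg_distrib]
    exact Finset.sum_congr rfl fun x _ => h3 x
  omega

/-- Character sum in `n`. -/
lemma abs_sum_psi_le {m : ℤ} (hm : m ≠ 0) (h : ¬ IsSquare m) (X : ℕ) :
    |∑ n ∈ range X, psi m n| ≤ 4 * m.natAbs := by
  have hP : 0 < 4 * m.natAbs := by
    have := Int.natAbs_pos.mpr hm
    omega
  obtain ⟨a, ha1, ha2⟩ := exists_right_neg_one hm h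
  have hpa : psi m a = -1 := by unfold psi; rw [if_pos ha1, ha2]
  have hcop : Nat.Coprime a (4 * m.natAbs) := by
    have h1 : Nat.Coprime a 4 := by
      have : Nat.Coprime a 2 := Nat.coprime_two_right.mpr (Nat.odd_iff.mpr ha1)
      exact Nat.Coprime.pow_right 2 this
    refine Nat.Coprime.mul_right h1 ?_
    have h2 : m.gcd a = 1 := by
      by_contra hne
      have := jacobiSym.eq_zero_iff.mpr ⟨by omega, hne⟩
      rw [this] at ha2
      exact absurd ha2 (by norm_num)
    rw [Int.gcd_eq_natAbs] at h2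
    exact (Nat.Coprime.symm h2)
  have hz := zero_sum_of_mul (g := psi m) (a := a) hP (fun n => psi_add_period n)
    (fun n => by rw [psi_mul_right, hpa, neg_one_mul]) hcop
  have := abs_sum_range_le hP (fun n => psi_add_period n) hz (abs_psi_le m) X
  exact_mod_cast this

lemma abs_sum_psi_Icc_le {m : ℤ} (hm : m ≠ 0) (h : ¬ IsSquare m) (X : ℕ) :
    |∑ n ∈ Icc 1 X, psi m n| ≤ 4 * m.natAbs := by
  have h1 : ∑ n ∈ Icc 1 X, psi m n = ∑ n ∈ range (X + 1), psi m n := by
    rw [Finset.sum_range_succ']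
    have : psi m 0 = 0 := by simp [psi]
    rw [this, add_zero, Finset.range_eq_Ico, Finset.sum_Ico_add' (fun n => psi m n) 0 X 1]
    rfl
  rw [h1]
  exact abs_sum_psi_le hm h _

/-- Character sum in `n` over multiples of `e`. -/
lemma abs_sum_psi_multiples_le {m : ℤ} (hm : m ≠ 0) (h : ¬ IsSquare m) (X e : ℕ) (he : 0 < e) :
    |∑ n ∈ (Icc 1 X).filter (fun n => e ∣ n), psi m n| ≤ 4 * m.natAbs := by
  have h1 : ∑ n ∈ (Icc 1 X).filter (fun n => e ∣ n), psi m n
      = ∑ n ∈ Icc 1 (X / e), psi m (e * n) := by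
    symm
    refine Finset.sum_nbij' (fun n => e * n) (fun n => n / e) ?_ ?_ ?_ ?_ ?_
    · intro n hn
      rw [mem_Icc] at hn
      rw [mem_filter, mem_Icc]
      refine ⟨⟨Nat.mul_pos he hn.1, ?_⟩, dvd_mul_right _ _⟩
      calc e * n ≤ e * (X / e) := Nat.mul_le_mul_left _ hn.2
        _ ≤ X := Nat.mul_div_le X e
    · intro n hn
      rw [mem_filter, mem_Icc] at hn
      rw [mem_Icc]
      obtain ⟨⟨h1, h2⟩, ⟨t, rfl⟩⟩ := hn
      rw [Nat.mul_div_cancel_left _ he]
      constructor
      · rcases Nat.eq_zero_or_pos t with h0 | h0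
        · subst h0; simp at h1
        · exact h0
      · rw [Nat.le_div_iff_mul_le he, mul_comm]; exact h2
    · intro n _; exact Nat.mul_div_cancel_left _ he
    · intro n hn
      rw [mem_filter] at hn
      exact Nat.mul_div_cancel' hn.2
    · intro n _; rfl
  rw [h1]
  simp only [psi_mul_right]
  rw [← Finset.mul_sum, abs_mul]
  calc |psi m e| * |∑ n ∈ Icc 1 (X / e), psi m n| ≤ 1 * (4 * m.natAbs) :=
        mul_le_mul (abs_psi_le m e) (abs_sum_psi_Icc_le hm h _) (abs_nonneg _) (by norm_num)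
    _ = _ := one_mul _

/-- Character sum in the numerator. -/
lemma abs_sum_left_le {n : ℕ} (hn : Odd n) (h : ¬ IsSquare n) (X : ℕ) :
    |∑ d ∈ range X, psi (d : ℤ) n| ≤ n := by
  obtain ⟨a, ha⟩ := exists_left_neg_one hn h
  have hn1 : n % 2 = 1 := Nat.odd_iff.mp hn
  have hpsi : ∀ d : ℤ, psi d n = jacobiSym d n := fun d => by unfold psi; rw [if_pos hn1]
  have hper : ∀ d : ℕ, psi ((d + n : ℕ) : ℤ) n = psi (d : ℤ) n := by
    intro d
    rw [hpsi, hpsi]
    apply jacobiSym.mod_left'
    push_cast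
    exact Int.add_emod_right _ _
  have hcop : Nat.Coprime a n := by
    have h2 : (a : ℤ).gcd n = 1 := by
      by_contra hne
      have := jacobiSym.eq_zero_iff.mpr ⟨by omega, hne⟩
      rw [this] at ha
      exact absurd ha (by norm_num)
    rwa [Int.gcd_natCast_natCast] at h2
  have hz := zero_sum_of_mul (g := fun d : ℕ => psi (d : ℤ) n) (a := a) hn.pos hper
    (fun d => by
      change psi ((a * d : ℕ) : ℤ) n = -psi (d : ℤ) n
      push_cast
      rw [psi_mul_left, hpsi (a : ℤ), ha, neg_one_mul]) hcop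
  exact abs_sum_range_le (g := fun d : ℕ => psi (d : ℤ) n) hn.pos hper hz
    (fun d => abs_psi_le _ _) X

lemma abs_sum_left_neg_le {n : ℕ} (hn : Odd n) (h : ¬ IsSquare n) (X : ℕ) :
    |∑ d ∈ range X, psi (-(d : ℤ)) n| ≤ n := by
  have h1 : ∀ d : ℕ, psi (-(d : ℤ)) n = psi (-1) n * psi (d : ℤ) n := by
    intro d
    rw [← psi_mul_left, neg_one_mul]
  simp only [h1]
  rw [← Finset.mul_sum, abs_mul]
  calc |psi (-1) n| * |∑ d ∈ range X, psi (d : ℤ) n| ≤ 1 * n :=
        mul_le_mul (abs_psi_le _ _) (abs_sum_left_le hn h X) (abs_nonneg _) (by norm_num)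
    _ = _ := one_mul _

end Pool.Agent.HyperWeil
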