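import Mathlib
import Pool.Agent.HyperWeil.CharSum

set_option autoImplicit false

/-!
# Large sieve type inequalities for quadratic characters (trivial character sum bounds only)
-/

namespace Pool.Agent.HyperWeil

open Finset

/-- Odd primes up to `N`. -/
def oddPrimes (N : ℕ) : Finset ℕ := (range (N + 1)).filter (fun p => p.Prime ∧ p ≠ 2)

lemma mem_oddPrimes {N p : ℕ} : p ∈ oddPrimes N ↔ p ≤ N ∧ p.Prime ∧ p ≠ 2 := by
  simp [oddPrimes]

/-- The twisted sum over primes. -/
noncomputable def tsum' (F : ℕ → ℝ) (N : ℕ) (d : ℤ) : ℝ := ∑ p ∈ oddPrimes N, F p * psi d p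

lemma squarefree_mul_isSquare {a b : ℕ} (ha : Squarefree a) (hb : Squarefree b)
    (h : IsSquare (a * b)) : a = b := by
  obtain ⟨s, hs⟩ := h
  have h1 : a ∣ s := by
    rw [← ha.dvd_pow_iff_dvd two_ne_zero, sq, ← hs]
    exact dvd_mul_right _ _
  obtain ⟨t, rfl⟩ := h1
  have ha0 : a ≠ 0 := ha.ne_zero
  have h2 : b = a * (t * t) := by
    have : a * b = a * (a * (t * t)) := by rw [hs]; ring
    exact Nat.eq_of_mul_eq_mul_left (Nat.pos_of_ne_zero ha0) this
  have h3 : IsUnit t := hb t ⟨a, by rw [h2]; ring⟩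
  rw [Nat.isUnit_iff] at h3
  rw [h2, h3]; ring

lemma int_squarefree_mul_isSquare {d e : ℤ} (hd : Squarefree d) (he : Squarefree e)
    (h : IsSquare (d * e)) : d = e := by
  obtain ⟨s, hs⟩ := h
  have h1 : IsSquare (d.natAbs * e.natAbs) := ⟨s.natAbs, by
    rw [← Int.natAbs_mul, hs, Int.natAbs_mul]⟩
  have h2 := squarefree_mul_isSquare (Int.squarefree_natAbs.mpr hd) (Int.squarefree_natAbs.mpr he) h1
  rcases Int.natAbs_eq_natAbs_iff.mp h2 with h3 | h3
  · exact h3
  · exfalso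
    have he0 : e ≠ 0 := he.ne_zero
    have h4 : 0 < e * e := mul_self_pos.mpr he0
    have h5 : 0 ≤ s * s := mul_self_nonneg s
    rw [h3] at hs
    nlinarith

/-- Abstract quadratic form bound. -/
lemma quad_form_le {ι : Type*} [DecidableEq ι] (S : Finset ι) (c : ι → ℝ) (K : ι → ι → ℝ)
    {U V : ℝ} (hV : 0 ≤ V) (hdiag : ∀ d ∈ S, |K d d| ≤ U)
    (hoff : ∀ d ∈ S, ∀ e ∈ S, d ≠ e → |K d e| ≤ V) :
    ∑ d ∈ S, ∑ e ∈ S, c d * c e * K d e ≤ (U + V * S.card) * ∑ d ∈ S, c d ^ 2 := by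
  have h1 : ∀ d ∈ S, ∀ e ∈ S, c d * c e * K d e
      ≤ (if d = e then U * c d ^ 2 else 0) + V * (|c d| * |c e|) := by
    intro d hd e he
    have h0 : c d * c e * K d e ≤ |c d| * |c e| * |K d e| := by
      rw [← abs_mul, ← abs_mul]; exact le_abs_self _
    split_ifs with h
    · subst h
      have h2 : |c d| * |c d| = c d ^ 2 := by rw [← sq, sq_abs]
      have h3 := hdiag d hd
      rw [h2] at h0 ⊢
      have h4 : 0 ≤ c d ^ 2 := sq_nonneg _
      nlinarith
    · have h3 := hoff d hd e he h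
      have h4 : 0 ≤ |c d| * |c e| := by positivity
      nlinarith
  calc ∑ d ∈ S, ∑ e ∈ S, c d * c e * K d e
      ≤ ∑ d ∈ S, ∑ e ∈ S, ((if d = e then U * c d ^ 2 else 0) + V * (|c d| * |c e|)) :=
        Finset.sum_le_sum fun d hd => Finset.sum_le_sum fun e he => h1 d hd e he
    _ = U * ∑ d ∈ S, c d ^ 2 + V * (∑ d ∈ S, |c d|) ^ 2 := by
        simp only [Finset.sum_add_distrib]
        congr 1
        · rw [Finset.mul_sum]
          refine Finset.sum_congr rfl fun d hd => ?_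
          rw [Finset.sum_ite_eq S d, if_pos hd]
        · rw [sq, Finset.sum_mul_sum, Finset.mul_sum]
          refine Finset.sum_congr rfl fun d _ => ?_
          rw [Finset.mul_sum]
    _ ≤ U * ∑ d ∈ S, c d ^ 2 + V * (S.card * ∑ d ∈ S, c d ^ 2) := by
        have := sq_sum_le_card_mul_sum_sq (s := S) (f := fun d => |c d|)
        simp only [sq_abs] at this
        gcongr
    _ = _ := by ring

/-- The dual large sieve over all integers. -/
lemma dual_sieve (S : Finset ℤ) (hS : ∀ d ∈ S, Squarefree d) {D : ℕ}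
    (hD : ∀ d ∈ S, d.natAbs ≤ D) (c : ℤ → ℝ) (M : ℕ) :
    ∑ n ∈ Icc 1 M, (∑ d ∈ S, c d * psi d n) ^ 2
      ≤ (M + 4 * D ^ 2 * S.card) * ∑ d ∈ S, c d ^ 2 := by
  have h1 : ∑ n ∈ Icc 1 M, (∑ d ∈ S, c d * psi d n) ^ 2
      = ∑ d ∈ S, ∑ e ∈ S, c d * c e * ((∑ n ∈ Icc 1 M, psi (d * e) n : ℤ) : ℝ) := by
    simp only [sq, Finset.sum_mul_sum]
    rw [Finset.sum_comm]
    refine Finset.sum_congr rfl fun d _ => ?_
    rw [Finset.sum_comm]
    refine Finset.sum_congr rfl fun e _ => ?_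
    push_cast
    rw [Finset.mul_sum]
    refine Finset.sum_congr rfl fun n _ => ?_
    rw [psi_mul_left]; push_cast; ring
  rw [h1]
  refine quad_form_le S c _ (by positivity) ?_ ?_
  · intro d _
    rw [← Int.cast_abs]
    have : |∑ n ∈ Icc 1 M, psi (d * d) n| ≤ M := by
      refine (Finset.abs_sum_le_sum_abs _ _).trans ?_
      refine (Finset.sum_le_sum fun n _ => abs_psi_le _ n).trans ?_
      simp
    exact_mod_cast this
  · intro d hd e he hne
    have hd0 := (hS d hd).ne_zero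
    have he0 := (hS e he).ne_zero
    have hns : ¬ IsSquare (d * e) := fun h => hne (int_squarefree_mul_isSquare (hS d hd) (hS e he) h)
    have h2 := abs_sum_psi_Icc_le (mul_ne_zero hd0 he0) hns M
    have h3 : (4 * (d * e).natAbs : ℕ) ≤ 4 * D ^ 2 := by
      rw [Int.natAbs_mul, sq]
      have := Nat.mul_le_mul (hD d hd) (hD e he)
      omega
    have h4 : |∑ n ∈ Icc 1 M, psi (d * e) n| ≤ 4 * D ^ 2 := by
      refine h2.trans ?_
      exact_mod_cast h3
    rw [← Int.cast_abs]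
    exact_mod_cast h4

/-- **Medium range.** -/
lemma medium_range (S : Finset ℤ) (hS : ∀ d ∈ S, Squarefree d) {D : ℕ}
    (hD : ∀ d ∈ S, d.natAbs ≤ D) {F : ℕ → ℝ} {B : ℝ} (hB : ∀ p, |F p| ≤ B) (N k : ℕ) :
    ∑ d ∈ S, tsum' F N d ^ (2 * k)
      ≤ (B ^ 2) ^ k * (k * (oddPrimes N).card) ^ k * (N ^ k + 4 * D ^ 2 * S.card) := by
  classical
  have hB0 : 0 ≤ B := (abs_nonneg _).trans (hB 0)
  set P := oddPrimes N with hP
  set c : ℤ → ℝ := fun d => tsum' F N d ^ k with hc
  set T : ℕ → ℝ := fun n => ∑ d ∈ S, c d * psi d n with hT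
  set X := ∑ d ∈ S, c d ^ 2 with hX
  have hX' : ∑ d ∈ S, tsum' F N d ^ (2 * k) = X := by
    refine Finset.sum_congr rfl fun d _ => ?_
    rw [hc, mul_comm, pow_mul]
  rw [hX']
  set W := Fintype.piFinset (fun _ : Fin k => P) with hW
  have hWcard : (W.card : ℝ) = (P.card : ℝ) ^ k := by
    rw [hW, Fintype.card_piFinset]; simp
  have hpow : ∀ d : ℤ, c d = ∑ x ∈ W, (∏ i, F (x i)) * psi d (∏ i, x i) := by
    intro d
    have h1 : c d = ∏ _i : Fin k, ∑ p ∈ P, F p * psi d p := by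
      rw [hc, Finset.prod_const, Finset.card_univ, Fintype.card_fin]
      rfl
    rw [h1, Finset.prod_univ_sum]
    refine Finset.sum_congr rfl fun x _ => ?_
    rw [Finset.prod_mul_distrib, psi_prod]
    push_cast; rfl
  have hXeq : X = ∑ x ∈ W, (∏ i, F (x i)) * T (∏ i, x i) := by
    rw [hX]
    have : ∀ d ∈ S, c d ^ 2 = ∑ x ∈ W, (∏ i, F (x i)) * (c d * psi d (∏ i, x i)) := by
      intro d _
      calc c d ^ 2 = c d * ∑ x ∈ W, (∏ i, F (x i)) * psi d (∏ i, x i) := by rw [← hpow d, sq]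
        _ = _ := by
          rw [Finset.mul_sum]
          refine Finset.sum_congr rfl fun x _ => ?_
          ring
    rw [Finset.sum_congr rfl this, Finset.sum_comm]
    refine Finset.sum_congr rfl fun x _ => ?_
    rw [hT, Finset.mul_sum]
  have hprodF : ∀ x : Fin k → ℕ, |∏ i, F (x i)| ≤ B ^ k := by
    intro x
    rw [Finset.abs_prod]
    calc ∏ i, |F (x i)| ≤ ∏ _i : Fin k, B := Finset.prod_le_prod (fun _ _ => abs_nonneg _) (fun i _ => hB _)
      _ = B ^ k := by simp
  have hX1 : X ≤ B ^ k * ∑ x ∈ W, |T (∏ i, x i)| := by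
    rw [hXeq, Finset.mul_sum]
    refine Finset.sum_le_sum fun x _ => ?_
    refine (le_abs_self _).trans ?_
    rw [abs_mul]
    exact mul_le_mul_of_nonneg_right (hprodF x) (abs_nonneg _)
  have hX0 : 0 ≤ X := Finset.sum_nonneg fun d _ => sq_nonneg _
  have hfib : ∑ x ∈ W, T (∏ i, x i) ^ 2 ≤ k ^ k * ∑ n ∈ Icc 1 (N ^ k), T n ^ 2 := by
    have hmaps : ∀ x ∈ W, ∏ i, x i ∈ Icc 1 (N ^ k) := by
      intro x hx
      rw [hW, Fintype.mem_piFinset] at hx
      rw [mem_Icc]
      constructor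
      · exact Finset.one_le_prod' fun i _ => (mem_oddPrimes.mp (hx i)).2.1.one_le
      · calc ∏ i, x i ≤ ∏ _i : Fin k, N := Finset.prod_le_prod' fun i _ => (mem_oddPrimes.mp (hx i)).1
          _ = N ^ k := by simp
    rw [← Finset.sum_fiberwise_of_maps_to hmaps, Finset.mul_sum]
    refine Finset.sum_le_sum fun n hn => ?_
    have hcongr : ∑ x ∈ W.filter (fun x => ∏ i, x i = n), T (∏ i, x i) ^ 2
        = ((W.filter (fun x => ∏ i, x i = n)).card : ℝ) * T n ^ 2 := by
      rw [Finset.sum_congr rfl (g := fun _ => T n ^ 2), Finset.sum_const, nsmul_eq_mul]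
      intro x hx
      rw [(mem_filter.mp hx).2]
    rw [hcongr]
    refine mul_le_mul_of_nonneg_right ?_ (sq_nonneg _)
    by_cases hne : (W.filter (fun x => ∏ i, x i = n)).Nonempty
    · obtain ⟨y, hy⟩ := hne
      rw [mem_filter] at hy
      have hpf : n.primeFactors.card ≤ k := by
        have hsub : n.primeFactors ⊆ univ.image y := by
          intro q hq
          rw [Nat.mem_primeFactors] at hq
          rw [← hy.2] at hq
          obtain ⟨i, -, hi⟩ := (Prime.dvd_finsetProd_iff hq.1.prime _).mp hq.2.1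
          have hyi := (mem_oddPrimes.mp ((Fintype.mem_piFinset.mp hy.1) i)).2.1
          rw [mem_image]
          exact ⟨i, mem_univ _, ((Nat.prime_dvd_prime_iff_eq hq.1 hyi).mp hi).symm⟩
        refine (Finset.card_le_card hsub).trans (Finset.card_image_le.trans ?_)
        simp
      have hsub2 : W.filter (fun x => ∏ i, x i = n) ⊆ Fintype.piFinset (fun _ : Fin k => n.primeFactors) := by
        intro x hx
        rw [mem_filter] at hx
        rw [Fintype.mem_piFinset]
        intro i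
        rw [Nat.mem_primeFactors]
        refine ⟨(mem_oddPrimes.mp ((Fintype.mem_piFinset.mp hx.1) i)).2.1, ?_, ?_⟩
        · rw [← hx.2]; exact Finset.dvd_prod_of_mem x (mem_univ i)
        · have := (mem_Icc.mp hn).1
          omega
      have h2 := Finset.card_le_card hsub2
      rw [Fintype.card_piFinset] at h2
      simp only [prod_const, card_univ, Fintype.card_fin] at h2
      have h3 : (W.filter (fun x => ∏ i, x i = n)).card ≤ k ^ k :=
        h2.trans (Nat.pow_le_pow_left hpf k)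
      exact_mod_cast h3
    · rw [Finset.not_nonempty_iff_eq_empty] at hne
      rw [hne]
      simp
  have hdual := dual_sieve S hS hD c (N ^ k)
  have hCS : (∑ x ∈ W, |T (∏ i, x i)|) ^ 2 ≤ W.card * ∑ x ∈ W, T (∏ i, x i) ^ 2 := by
    have := sq_sum_le_card_mul_sum_sq (s := W) (f := fun x => |T (∏ i, x i)|)
    simpa only [sq_abs] using this
  have hfinal : X ^ 2 ≤ ((B ^ 2) ^ k * (k * (P.card : ℝ)) ^ k * (N ^ k + 4 * D ^ 2 * S.card)) * X := by
    calc X ^ 2 ≤ (B ^ k * ∑ x ∈ W, |T (∏ i, x i)|) ^ 2 := pow_le_pow_left₀ hX0 hX1 2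
      _ = (B ^ 2) ^ k * (∑ x ∈ W, |T (∏ i, x i)|) ^ 2 := by
          rw [mul_pow, ← pow_mul, ← pow_mul, mul_comm 2 k]
      _ ≤ (B ^ 2) ^ k * (W.card * (k ^ k * ((N ^ k + 4 * D ^ 2 * S.card) * X))) := by
          gcongr
          refine hCS.trans ?_
          gcongr
          refine hfib.trans ?_
          gcongr
          push_cast at hdual
          exact hdual
      _ = _ := by rw [hWcard, mul_pow]; ring
  rcases hX0.eq_or_lt with h0 | h0
  · rw [← h0]
    positivity
  · rw [sq] at hfinal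
    exact le_of_mul_le_mul_right hfinal h0


/-- Number of `m`-tuples of primes whose product is a square. -/
lemma card_square_tuples (P : Finset ℕ) (hP : ∀ p ∈ P, p.Prime) (m : ℕ) :
    ((Fintype.piFinset (fun _ : Fin (m + 2) => P)).filter (fun x => IsSquare (∏ i, x i))).card
      ≤ (m + 1) * P.card *
        ((Fintype.piFinset (fun _ : Fin m => P)).filter (fun x => IsSquare (∏ i, x i))).card := by
  classical
  set U := (Fintype.piFinset (fun _ : Fin m => P)).filter (fun x => IsSquare (∏ i, x i)) with hU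
  set f : (Fin (m + 1) × ℕ) × (Fin m → ℕ) → (Fin (m + 2) → ℕ) := fun t =>
    Fin.cons t.1.2 (t.1.1.insertNth t.1.2 t.2) with hf
  have hsub : (Fintype.piFinset (fun _ : Fin (m + 2) => P)).filter (fun x => IsSquare (∏ i, x i))
      ⊆ ((univ ×ˢ P) ×ˢ U).image f := by
    intro x hx
    rw [mem_filter, Fintype.mem_piFinset] at hx
    obtain ⟨hxP, s, hs⟩ := hx
    have hx0 := hP _ (hxP 0)
    rw [Fin.prod_univ_succ] at hs
    have h1 : x 0 ∣ s := by
      have : x 0 ∣ s * s := ⟨_, hs.symm⟩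
      exact (hx0.dvd_mul.mp this).elim id id
    obtain ⟨t, rfl⟩ := h1
    have h2 : ∏ i : Fin (m + 1), x i.succ = x 0 * (t * t) := by
      have : x 0 * ∏ i : Fin (m + 1), x i.succ = x 0 * (x 0 * (t * t)) := by rw [hs]; ring
      exact Nat.eq_of_mul_eq_mul_left hx0.pos this
    obtain ⟨j, -, hj⟩ := (Prime.dvd_finsetProd_iff hx0.prime _).mp
      (show x 0 ∣ ∏ i : Fin (m + 1), x i.succ from ⟨_, h2⟩)
    have hj' : x j.succ = x 0 :=
      ((Nat.prime_dvd_prime_iff_eq hx0 (hP _ (hxP _))).mp hj).symm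
    rw [mem_image]
    refine ⟨((j, x 0), fun i => x (j.succAbove i).succ), ?_, ?_⟩
    · rw [mem_product, mem_product, hU, mem_filter, Fintype.mem_piFinset]
      refine ⟨⟨mem_univ _, hxP 0⟩, fun i => hxP _, ?_⟩
      rw [Fin.prod_univ_succAbove _ j, hj'] at h2
      exact ⟨t, Nat.eq_of_mul_eq_mul_left hx0.pos h2⟩
    · rw [hf]
      funext i
      refine Fin.cases ?_ (fun i => ?_) i
      · rfl
      · change (Fin.cons (x 0) (j.insertNth (x 0) (fun i => x (j.succAbove i).succ)) :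
          Fin (m + 2) → ℕ) i.succ = _
        rw [Fin.cons_succ]
        rcases Fin.eq_self_or_eq_succAbove j i with h | ⟨i', h⟩
        · subst h
          rw [Fin.insertNth_apply_same, hj']
        · subst h
          rw [Fin.insertNth_apply_succAbove]
  refine (Finset.card_le_card hsub).trans (Finset.card_image_le.trans ?_)
  rw [card_product, card_product, card_univ, Fintype.card_fin]

lemma card_square_tuples_le (P : Finset ℕ) (hP : ∀ p ∈ P, p.Prime) (k : ℕ) :
    ((Fintype.piFinset (fun _ : Fin (2 * k) => P)).filter (fun x => IsSquare (∏ i, x i))).card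
      ≤ (2 * k * P.card) ^ k := by
  induction k with
  | zero =>
    refine (Finset.card_filter_le _ _).trans ?_
    rw [Fintype.card_piFinset]
    simp
  | succ k ih =>
    refine (card_square_tuples P hP (2 * k)).trans ?_
    calc (2 * k + 1) * P.card * _ ≤ (2 * (k + 1) * P.card) * (2 * k * P.card) ^ k := by
          refine Nat.mul_le_mul ?_ ih
          exact Nat.mul_le_mul_right _ (by omega)
      _ ≤ (2 * (k + 1) * P.card) * (2 * (k + 1) * P.card) ^ k := by
          refine Nat.mul_le_mul_left _ (Nat.pow_le_pow_left ?_ k)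
          exact Nat.mul_le_mul_right _ (by omega)
      _ = _ := by rw [← pow_succ']

lemma small_range_aux {F : ℕ → ℝ} {B : ℝ} (hB : ∀ p, |F p| ≤ B) (N k D : ℕ) (g : ℕ → ℤ)
    (hg : ∀ n : ℕ, Odd n → ¬ IsSquare n → |∑ d ∈ range (D + 1), psi (g d) n| ≤ n) :
    ∑ d ∈ range (D + 1), tsum' F N (g d) ^ (2 * k)
      ≤ (B ^ 2) ^ k * ((2 * k * (oddPrimes N).card) ^ k * (D + 1)
        + ((N : ℝ) * (oddPrimes N).card) ^ (2 * k)) := by
  classical
  have hB0 : 0 ≤ B := (abs_nonneg _).trans (hB 0)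
  set P := oddPrimes N with hP
  set W := Fintype.piFinset (fun _ : Fin (2 * k) => P) with hW
  have hWcard : (W.card : ℝ) = (P.card : ℝ) ^ (2 * k) := by
    rw [hW, Fintype.card_piFinset]; simp
  have hpow : ∀ d : ℤ, tsum' F N d ^ (2 * k) = ∑ x ∈ W, (∏ i, F (x i)) * psi d (∏ i, x i) := by
    intro d
    have h1 : tsum' F N d ^ (2 * k) = ∏ _i : Fin (2 * k), ∑ p ∈ P, F p * psi d p := by
      rw [Finset.prod_const, Finset.card_univ, Fintype.card_fin]
      rfl
    rw [h1, Finset.prod_univ_sum]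
    refine Finset.sum_congr rfl fun x _ => ?_
    rw [Finset.prod_mul_distrib, psi_prod]
    push_cast; rfl
  have hprodF : ∀ x : Fin (2 * k) → ℕ, |∏ i, F (x i)| ≤ B ^ (2 * k) := by
    intro x
    rw [Finset.abs_prod]
    calc ∏ i, |F (x i)| ≤ ∏ _i : Fin (2 * k), B :=
          Finset.prod_le_prod (fun _ _ => abs_nonneg _) (fun i _ => hB _)
      _ = B ^ (2 * k) := by simp
  simp only [hpow]
  rw [Finset.sum_comm]
  have hterm : ∀ x ∈ W, ∑ d ∈ range (D + 1), (∏ i, F (x i)) * (psi (g d) (∏ i, x i) : ℝ)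
      ≤ B ^ (2 * k) * ((if IsSquare (∏ i, x i) then ((D : ℝ) + 1) else 0) + (N : ℝ) ^ (2 * k)) := by
    intro x hx
    rw [hW, Fintype.mem_piFinset] at hx
    rw [← Finset.mul_sum]
    refine (le_abs_self _).trans ?_
    rw [abs_mul]
    refine mul_le_mul (hprodF x) ?_ (abs_nonneg _) (by positivity)
    have hcast : ∑ d ∈ range (D + 1), (psi (g d) (∏ i, x i) : ℝ)
        = ((∑ d ∈ range (D + 1), psi (g d) (∏ i, x i) : ℤ) : ℝ) := by push_cast; rfl
    rw [hcast, ← Int.cast_abs]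
    split_ifs with hsq
    · have h1 : |∑ d ∈ range (D + 1), psi (g d) (∏ i, x i)| ≤ (D + 1 : ℕ) := by
        refine (Finset.abs_sum_le_sum_abs _ _).trans ?_
        refine (Finset.sum_le_sum fun n _ => abs_psi_le _ _).trans ?_
        simp
      have h2 : ((|∑ d ∈ range (D + 1), psi (g d) (∏ i, x i)| : ℤ) : ℝ) ≤ ((D + 1 : ℕ) : ℝ) := by
        exact_mod_cast h1
      push_cast at h2 ⊢
      have : (0 : ℝ) ≤ (N : ℝ) ^ (2 * k) := by positivity
      linarith
    · have hodd : Odd (∏ i, x i) := by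
        rw [Nat.odd_iff]
        by_contra hcon
        have h2 : 2 ∣ ∏ i, x i := by omega
        obtain ⟨i, -, hi⟩ := (Prime.dvd_finsetProd_iff Nat.prime_two.prime _).mp h2
        have hxi := mem_oddPrimes.mp (hx i)
        exact hxi.2.2 ((Nat.prime_dvd_prime_iff_eq Nat.prime_two hxi.2.1).mp hi).symm
      have h1 := hg _ hodd hsq
      have h2 : ∏ i, x i ≤ N ^ (2 * k) := by
        calc ∏ i, x i ≤ ∏ _i : Fin (2 * k), N :=
              Finset.prod_le_prod' fun i _ => (mem_oddPrimes.mp (hx i)).1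
          _ = N ^ (2 * k) := by simp
      have h3 : |∑ d ∈ range (D + 1), psi (g d) (∏ i, x i)| ≤ (N ^ (2 * k) : ℕ) :=
        h1.trans (by exact_mod_cast h2)
      have h4 : ((|∑ d ∈ range (D + 1), psi (g d) (∏ i, x i)| : ℤ) : ℝ) ≤ ((N ^ (2 * k) : ℕ) : ℝ) := by
        exact_mod_cast h3
      push_cast at h4 ⊢
      linarith
  refine (Finset.sum_le_sum hterm).trans ?_
  rw [← Finset.mul_sum, Finset.sum_add_distrib, ← Finset.sum_filter, Finset.sum_const,
    Finset.sum_const, nsmul_eq_mul, nsmul_eq_mul, hWcard, pow_mul B 2 k, mul_pow (N : ℝ)]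
  have hc := card_square_tuples_le P (fun p hp => (mem_oddPrimes.mp hp).2.1) k
  have hc' : (((Fintype.piFinset (fun _ : Fin (2 * k) => P)).filter
      (fun x => IsSquare (∏ i, x i))).card : ℝ) ≤ (2 * k * (P.card : ℝ)) ^ k := by
    exact_mod_cast hc
  rw [← hW] at hc'
  have hD0 : (0 : ℝ) ≤ (D : ℝ) + 1 := by positivity
  have h5 := mul_le_mul_of_nonneg_right hc' hD0
  have hBk : 0 ≤ (B ^ 2) ^ k := by positivity
  refine mul_le_mul_of_nonneg_left ?_ hBk
  linarith

/-- **Small range.** -/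
lemma small_range (S : Finset ℤ) {D : ℕ} (hD : ∀ d ∈ S, d.natAbs ≤ D) {F : ℕ → ℝ} {B : ℝ}
    (hB : ∀ p, |F p| ≤ B) (N k : ℕ) :
    ∑ d ∈ S, tsum' F N d ^ (2 * k)
      ≤ 2 * ((B ^ 2) ^ k * ((2 * k * (oddPrimes N).card) ^ k * (D + 1)
        + ((N : ℝ) * (oddPrimes N).card) ^ (2 * k))) := by
  classical
  have h1 := small_range_aux hB N k D (fun d => (d : ℤ)) (fun n hn hns => abs_sum_left_le hn hns _)
  have h2 := small_range_aux hB N k D (fun d => -(d : ℤ))
    (fun n hn hns => abs_sum_left_neg_le hn hns _)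
  have hnn : ∀ d : ℤ, 0 ≤ tsum' F N d ^ (2 * k) := fun d => by
    rw [pow_mul]; positivity
  have hsub : S ⊆ (range (D + 1)).image (fun d : ℕ => (d : ℤ))
      ∪ (range (D + 1)).image (fun d : ℕ => -(d : ℤ)) := by
    intro d hd
    have := hD d hd
    rw [mem_union, mem_image, mem_image]
    rcases Int.natAbs_eq d with h | h
    · left; exact ⟨d.natAbs, by rw [mem_range]; omega, h.symm⟩
    · right; exact ⟨d.natAbs, by rw [mem_range]; omega, h.symm⟩
  calc ∑ d ∈ S, tsum' F N d ^ (2 * k)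
      ≤ ∑ d ∈ (range (D + 1)).image (fun d : ℕ => (d : ℤ))
        ∪ (range (D + 1)).image (fun d : ℕ => -(d : ℤ)), tsum' F N d ^ (2 * k) :=
        Finset.sum_le_sum_of_subset_of_nonneg hsub fun d _ _ => hnn d
    _ ≤ ∑ d ∈ (range (D + 1)).image (fun d : ℕ => (d : ℤ)), tsum' F N d ^ (2 * k)
        + ∑ d ∈ (range (D + 1)).image (fun d : ℕ => -(d : ℤ)), tsum' F N d ^ (2 * k) := by
        rw [← Finset.sum_union_inter]
        have : 0 ≤ ∑ d ∈ (range (D + 1)).image (fun d : ℕ => (d : ℤ))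
          ∩ (range (D + 1)).image (fun d : ℕ => -(d : ℤ)), tsum' F N d ^ (2 * k) :=
          Finset.sum_nonneg fun d _ => hnn d
        linarith
    _ = ∑ d ∈ range (D + 1), tsum' F N (d : ℤ) ^ (2 * k)
        + ∑ d ∈ range (D + 1), tsum' F N (-(d : ℤ)) ^ (2 * k) := by
        rw [Finset.sum_image (by intro a _ b _ h; simpa using h),
          Finset.sum_image (by intro a _ b _ h; simpa using h)]
    _ ≤ _ := by linarith


end Pool.Agent.HyperWeil
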