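import Mathlib
import Pool.Agent.PnMn.GeneralSieve
import Pool.Agent.PnMn.SieveCor
import Pool.Agent.HyperWeil.LargeSieve

set_option autoImplicit false

/-!
# The large range: Selberg weights in the dual large sieve
-/

namespace Pool.Agent.HyperWeil

open Finset Pool.Agent.PnMn.Sieve

/-- All primes up to `z`. -/
def allPrimes (z : ℕ) : Finset ℕ := (range (z + 1)).filter Nat.Prime

lemma mem_allPrimes {z p : ℕ} : p ∈ allPrimes z ↔ p ≤ z ∧ p.Prime := by
  simp [allPrimes]

/-- Sieve data with density `1/d`. -/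
noncomputable def sdata (z N : ℕ) (w : ℕ → ℝ) (hw : ∀ n, 0 ≤ w n) : BoundingSieve where
  support := Icc 1 N
  prodPrimes := ∏ p ∈ allPrimes z, p
  prodPrimes_squarefree := sqf (allPrimes z) (fun p hp => (mem_allPrimes.mp hp).2)
  weights := w
  weights_nonneg := hw
  totalMass := N
  nu := ArithmeticFunction.prodPrimeFactors (fun p => 1 / (p : ℝ))
  nu_mult := ArithmeticFunction.IsMultiplicative.prodPrimeFactors _
  nu_pos_of_prime := by
    intro p hp _
    rw [ArithmeticFunction.prodPrimeFactors_apply hp.ne_zero, hp.primeFactors, prod_singleton]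
    have : (0 : ℝ) < p := by exact_mod_cast hp.pos
    positivity
  nu_lt_one_of_prime := by
    intro p hp _
    rw [ArithmeticFunction.prodPrimeFactors_apply hp.ne_zero, hp.primeFactors, prod_singleton]
    have : (1 : ℝ) < p := by exact_mod_cast hp.one_lt
    rw [div_lt_one (by linarith)]
    exact this

lemma sdata_nu {z N : ℕ} {w : ℕ → ℝ} {hw : ∀ n, 0 ≤ w n} {d : ℕ}
    (hd : d ∣ (sdata z N w hw).prodPrimes) : (sdata z N w hw).nu d = 1 / (d : ℝ) := by
  have hsq : Squarefree d := BoundingSieve.squarefree_of_dvd_prodPrimes hd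
  have h0 : d ≠ 0 := hsq.ne_zero
  change ArithmeticFunction.prodPrimeFactors (fun p => 1 / (p : ℝ)) d = _
  rw [ArithmeticFunction.prodPrimeFactors_apply h0]
  rw [Finset.prod_div_distrib, Finset.prod_const_one]
  congr 1
  rw [← Nat.cast_prod, Nat.prod_primeFactors_of_squarefree hsq]

lemma sdata_nu_prime {z N : ℕ} {w : ℕ → ℝ} {hw : ∀ n, 0 ≤ w n} {p : ℕ} (hp : p.Prime) :
    (sdata z N w hw).nu p = 1 / (p : ℝ) := by
  change ArithmeticFunction.prodPrimeFactors (fun p => 1 / (p : ℝ)) p = _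
  rw [ArithmeticFunction.prodPrimeFactors_apply hp.ne_zero, hp.primeFactors, prod_singleton]

lemma sdata_primeFactors {z N : ℕ} {w : ℕ → ℝ} {hw : ∀ n, 0 ≤ w n} :
    (sdata z N w hw).prodPrimes.primeFactors = allPrimes z :=
  Nat.primeFactors_prod (fun _ hp => (mem_allPrimes.mp hp).2)

lemma sdata_GG {z N : ℕ} {w : ℕ → ℝ} {hw : ∀ n, 0 ≤ w n} (hz : 2 ≤ z) :
    Real.log z / 2 ≤ GG (sdata z N w hw) (z ^ 9) := by
  have h1 := GG_lower (sdata z N w hw) z hz
    (by intro p hp; rw [sdata_primeFactors] at hp; exact (mem_allPrimes.mp hp).1)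
    (by
      intro p hp
      rw [sdata_primeFactors] at hp
      have hpp := (mem_allPrimes.mp hp).2
      rw [sdata_nu_prime hpp]
      have : (0 : ℝ) < p := by exact_mod_cast hpp.pos
      gcongr
      norm_num)
  refine le_trans ?_ h1
  rw [sdata_primeFactors]
  have h2 := Pool.Agent.PnMn.SieveCor.log_le_prod (z + 1) (by omega)
  have h3 : ∏ p ∈ (z + 1).primesBelow, (1 - (p : ℝ)⁻¹)⁻¹
      = ∏ p ∈ allPrimes z, (1 - (sdata z N w hw).nu p)⁻¹ := by
    refine Finset.prod_congr ?_ ?_
    · ext p; simp [allPrimes, Nat.mem_primesBelow]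
    · intro p hp
      rw [sdata_nu_prime (mem_allPrimes.mp hp).2, one_div]
  rw [← h3]
  have h4 : Real.log z ≤ Real.log ((z + 1 : ℕ) : ℝ) := by
    apply Real.log_le_log
    · exact_mod_cast (by omega : 0 < z)
    · push_cast; linarith
  linarith

/-- Selberg's bound for the sieve data with a uniform bound for the remainders. -/
lemma sdata_bound {z N : ℕ} {w : ℕ → ℝ} {hw : ∀ n, 0 ≤ w n} (hz : 2 ≤ z) {R : ℝ} (hR : 1 ≤ R)
    (hrem : ∀ d : ℕ, d ∣ (sdata z N w hw).prodPrimes → |(sdata z N w hw).rem d| ≤ R) :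
    (sdata z N w hw).siftedSum ≤ 2 * N / Real.log z + (z : ℝ) ^ 36 * R ^ 2 := by
  set s := sdata z N w hw with hs
  have hQ : 1 ≤ z ^ 9 := Nat.one_le_pow _ _ (by omega)
  have h1 := selberg_bound s hQ (fun _ => R) (fun _ _ => by linarith) hrem
    (fun _ _ _ _ => by nlinarith)
  have hlog : 0 < Real.log z := Real.log_pos (by exact_mod_cast hz)
  have h2 : s.totalMass / GG s (z ^ 9) ≤ 2 * N / Real.log z := by
    change (N : ℝ) / GG s (z ^ 9) ≤ _
    have h3 := sdata_GG (z := z) (N := N) (w := w) (hw := hw) hz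
    rw [← hs] at h3
    calc (N : ℝ) / GG s (z ^ 9) ≤ N / (Real.log z / 2) := by gcongr
      _ = _ := by field_simp
  have h3 : ∑ d ∈ s.prodPrimes.divisors, (if d ≤ z ^ 9 then s.selbergTerms d * (s.nu d)⁻¹ * R else 0)
      ≤ (z : ℝ) ^ 18 * R := by
    rw [← Finset.sum_filter]
    have hterm : ∀ d ∈ s.prodPrimes.divisors.filter (fun d => d ≤ z ^ 9),
        s.selbergTerms d * (s.nu d)⁻¹ * R ≤ (z : ℝ) ^ 9 * R := by
      intro d hd
      rw [mem_filter, Nat.mem_divisors] at hd
      have hdP := hd.1.1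
      have hsq : Squarefree d := BoundingSieve.squarefree_of_dvd_prodPrimes hdP
      have hnu : s.nu d ≠ 0 := BoundingSieve.nu_ne_zero hdP
      refine mul_le_mul_of_nonneg_right ?_ (by linarith)
      rw [BoundingSieve.selbergTerms_apply, mul_comm (s.nu d), mul_assoc, mul_inv_cancel₀ hnu, mul_one]
      calc ∏ p ∈ d.primeFactors, (1 - s.nu p)⁻¹ ≤ ∏ p ∈ d.primeFactors, (p : ℝ) := by
            refine Finset.prod_le_prod ?_ ?_
            · intro p hp
              have hpp := Nat.prime_of_mem_primeFactors hp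
              rw [hs, sdata_nu_prime hpp]
              have : (1 : ℝ) < p := by exact_mod_cast hpp.one_lt
              have : 1 / (p : ℝ) < 1 := by rw [div_lt_one (by linarith)]; exact this
              have : 0 < 1 - 1 / (p : ℝ) := by linarith
              positivity
            · intro p hp
              have hpp := Nat.prime_of_mem_primeFactors hp
              rw [hs, sdata_nu_prime hpp]
              have h2 : (2 : ℝ) ≤ p := by exact_mod_cast hpp.two_le
              have h3 : 1 / (p : ℝ) ≤ 1 / 2 := by gcongr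
              calc (1 - 1 / (p : ℝ))⁻¹ ≤ (1 / 2)⁻¹ := by
                    apply inv_anti₀ (by norm_num); linarith
                _ ≤ p := by norm_num; exact hpp.two_le
        _ = (d : ℝ) := by rw [← Nat.cast_prod, Nat.prod_primeFactors_of_squarefree hsq]
        _ ≤ (z : ℝ) ^ 9 := by exact_mod_cast hd.2
    refine (Finset.sum_le_card_nsmul _ _ _ hterm).trans ?_
    rw [nsmul_eq_mul]
    have hcard : (s.prodPrimes.divisors.filter (fun d => d ≤ z ^ 9)).card ≤ z ^ 9 := by
      have hsub : s.prodPrimes.divisors.filter (fun d => d ≤ z ^ 9) ⊆ Icc 1 (z ^ 9) := by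
        intro d hd
        rw [mem_filter] at hd
        rw [mem_Icc]
        exact ⟨Nat.pos_of_mem_divisors hd.1, hd.2⟩
      refine (Finset.card_le_card hsub).trans ?_
      simp
    have hcard' : ((s.prodPrimes.divisors.filter (fun d => d ≤ z ^ 9)).card : ℝ) ≤ (z : ℝ) ^ 9 := by
      exact_mod_cast hcard
    calc _ ≤ (z : ℝ) ^ 9 * ((z : ℝ) ^ 9 * R) := by
          apply mul_le_mul_of_nonneg_right hcard'
          positivity
      _ = _ := by ring
  have h4 : 0 ≤ ∑ d ∈ s.prodPrimes.divisors, (if d ≤ z ^ 9 then s.selbergTerms d * (s.nu d)⁻¹ * R else 0) := by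
    refine Finset.sum_nonneg fun d hd => ?_
    have hdP := Nat.dvd_of_mem_divisors hd
    split_ifs
    · have h5 := BoundingSieve.selbergTerms_pos hdP
      have h6 := BoundingSieve.nu_pos_of_dvd_prodPrimes hdP
      positivity
    · exact le_rfl
  have h5 : (∑ d ∈ s.prodPrimes.divisors, (if d ≤ z ^ 9 then s.selbergTerms d * (s.nu d)⁻¹ * R else 0)) ^ 2
      ≤ ((z : ℝ) ^ 18 * R) ^ 2 := pow_le_pow_left₀ h4 h3 2
  have h6 : ((z : ℝ) ^ 18 * R) ^ 2 = (z : ℝ) ^ 36 * R ^ 2 := by ring
  linarith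

/-- The kernel. -/
noncomputable def Kern (n : ℕ) (d e : ℤ) : ℝ := if d = e then 1 else (psi (d * e) n : ℝ)

lemma sq_le_kern (S : Finset ℤ) (c : ℤ → ℝ) (n : ℕ) :
    (∑ d ∈ S, c d * psi d n) ^ 2 ≤ ∑ d ∈ S, ∑ e ∈ S, c d * c e * Kern n d e := by
  have h1 : ∑ d ∈ S, ∑ e ∈ S, c d * c e * Kern n d e
      = (∑ d ∈ S, c d * psi d n) ^ 2 + ∑ d ∈ S, c d ^ 2 * (1 - (psi d n : ℝ) ^ 2) := by
    rw [sq, Finset.sum_mul_sum, ← Finset.sum_add_distrib]
    refine Finset.sum_congr rfl fun d hd => ?_
    have h2 : ∀ e ∈ S, c d * c e * Kern n d e = c d * psi d n * (c e * psi e n)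
        + if d = e then c d ^ 2 * (1 - (psi d n : ℝ) ^ 2) else 0 := by
      intro e _
      unfold Kern
      split_ifs with h
      · subst h; ring
      · rw [psi_mul_left]; push_cast; ring
    rw [Finset.sum_congr rfl h2, Finset.sum_add_distrib, Finset.sum_ite_eq S d, if_pos hd]
  rw [h1]
  have h3 : 0 ≤ ∑ d ∈ S, c d ^ 2 * (1 - (psi d n : ℝ) ^ 2) := by
    refine Finset.sum_nonneg fun d _ => mul_nonneg (sq_nonneg _) ?_
    rcases psi_trichotomy d n with h | h | h <;> rw [h] <;> norm_num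
  linarith

/-- **Large range**, sieve form. -/
lemma sieve_sum_le (S : Finset ℤ) (hS : ∀ d ∈ S, Squarefree d) {D : ℕ}
    (hD : ∀ d ∈ S, d.natAbs ≤ D) (c : ℤ → ℝ) (N z : ℕ) (hz : 2 ≤ z) :
    ∑ p ∈ oddPrimes N, (∑ d ∈ S, c d * psi d p) ^ 2
      ≤ (2 * N / Real.log z + 2 * ((z : ℝ) ^ 36 * (1 + 4 * D ^ 2 * S.card) ^ 2))
        * ∑ d ∈ S, c d ^ 2 := by
  classical
  set κ := ∑ d ∈ S, c d ^ 2 with hκ
  set R : ℝ := 1 + 4 * D ^ 2 * S.card with hR
  have hR1 : 1 ≤ R := by
    rw [hR]
    have : (0 : ℝ) ≤ 4 * D ^ 2 * S.card := by positivity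
    linarith
  have hlog : 0 < Real.log z := Real.log_pos (by exact_mod_cast hz)
  have hκ0 : 0 ≤ κ := Finset.sum_nonneg fun d _ => sq_nonneg _
  rcases hκ0.eq_or_lt with h0 | hκpos
  · -- all `c d = 0`
    have hc : ∀ d ∈ S, c d = 0 := by
      intro d hd
      have := (Finset.sum_eq_zero_iff_of_nonneg (fun d _ => sq_nonneg (c d))).mp h0.symm d hd
      exact pow_eq_zero_iff two_ne_zero |>.mp this
    have : ∑ p ∈ oddPrimes N, (∑ d ∈ S, c d * psi d p) ^ 2 = 0 := by
      refine Finset.sum_eq_zero fun p _ => ?_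
      rw [Finset.sum_eq_zero fun d hd => by rw [hc d hd, zero_mul]]
      norm_num
    rw [this, ← h0, mul_zero]
  · set w : ℕ → ℝ := fun n => (∑ d ∈ S, ∑ e ∈ S, c d * c e * Kern n d e) / κ with hw
    have hw0 : ∀ n, 0 ≤ w n := fun n => div_nonneg ((sq_nonneg _).trans (sq_le_kern S c n)) hκ0
    have hrem : ∀ m : ℕ, m ∣ (sdata z N w hw0).prodPrimes → |(sdata z N w hw0).rem m| ≤ R := by
      intro m hm
      have hm0 : m ≠ 0 := ne_zero_of_dvd_ne_zero BoundingSieve.prodPrimes_ne_zero hm
      have hmpos : 0 < m := Nat.pos_of_ne_zero hm0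
      set I := (Icc 1 N).filter (fun n => m ∣ n) with hI
      have hIcard : (I.card : ℝ) = ((N / m : ℕ) : ℝ) := by
        have h1 : I = (Ioc 0 N).filter (fun n => m ∣ n) := by
          rw [hI]; ext n; simp only [mem_filter, mem_Icc, mem_Ioc]; constructor <;>
            (rintro ⟨⟨a, b⟩, c⟩; exact ⟨⟨by omega, b⟩, c⟩)
        rw [h1, Nat.Ioc_filter_dvd_card_eq_div]
      set K' : ℤ → ℤ → ℝ := fun d e => if d = e then (I.card : ℝ) - N / m
        else ((∑ n ∈ I, psi (d * e) n : ℤ) : ℝ) with hK'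
      have hremeq : (sdata z N w hw0).rem m = (∑ d ∈ S, ∑ e ∈ S, c d * c e * K' d e) / κ := by
        have h1 : (sdata z N w hw0).rem m = ∑ n ∈ I, w n - N / m := by
          rw [BoundingSieve.rem, BoundingSieve.multSum, sdata_nu hm]
          change (∑ n ∈ Icc 1 N, if m ∣ n then w n else 0) - 1 / (m : ℝ) * (N : ℝ) = _
          rw [← Finset.sum_filter]
          ring
        rw [h1, hw, ← Finset.sum_div, sub_eq_iff_eq_add]
        have h2 : (∑ d ∈ S, ∑ e ∈ S, c d * c e * K' d e) / κ + N / m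
            = (∑ d ∈ S, ∑ e ∈ S, c d * c e * (K' d e + if d = e then (N : ℝ) / m else 0)) / κ := by
          have h3 : ∑ d ∈ S, ∑ e ∈ S, c d * c e * (K' d e + if d = e then (N : ℝ) / m else 0)
              = ∑ d ∈ S, ∑ e ∈ S, c d * c e * K' d e + κ * (N / m) := by
            rw [hκ, Finset.sum_mul, ← Finset.sum_add_distrib]
            refine Finset.sum_congr rfl fun d hd => ?_
            simp only [mul_add, Finset.sum_add_distrib]
            congr 1
            rw [Finset.sum_congr rfl (g := fun e => if d = e then c d ^ 2 * ((N : ℝ) / m) else 0),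
              Finset.sum_ite_eq S d, if_pos hd]
            intro e _
            split_ifs with h
            · subst h; ring
            · ring
          rw [h3, add_div, mul_div_cancel_left₀ _ hκpos.ne']
        rw [h2]
        congr 1
        rw [Finset.sum_comm]
        refine Finset.sum_congr rfl fun d _ => ?_
        rw [Finset.sum_comm]
        refine Finset.sum_congr rfl fun e _ => ?_
        rw [← Finset.mul_sum]
        congr 1
        simp only [hK', Kern]
        split_ifs with h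
        · simp
        · push_cast; ring
      have hdiag : ∀ d ∈ S, |K' d d| ≤ 1 := by
        intro d _
        simp only [hK', if_pos]
        rw [hIcard, abs_le]
        have hm' : (0 : ℝ) < m := by exact_mod_cast hmpos
        have h1 : ((N / m : ℕ) : ℝ) ≤ (N : ℝ) / m := Nat.cast_div_le
        have h2 : (N : ℝ) / m < ((N / m : ℕ) : ℝ) + 1 := by
          rw [div_lt_iff₀ hm']
          have := Nat.lt_mul_div_succ N hmpos
          have h3 : (N : ℝ) < (m * (N / m + 1) : ℕ) := by exact_mod_cast this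
          push_cast at h3
          linarith
        constructor <;> linarith
      have hoff : ∀ d ∈ S, ∀ e ∈ S, d ≠ e → |K' d e| ≤ 4 * D ^ 2 := by
        intro d hd e he hne
        simp only [hK', if_neg hne]
        have hns : ¬ IsSquare (d * e) :=
          fun h => hne (int_squarefree_mul_isSquare (hS d hd) (hS e he) h)
        have h2 := abs_sum_psi_multiples_le
          (mul_ne_zero (hS d hd).ne_zero (hS e he).ne_zero) hns N m hmpos
        have h3 : (4 * (d * e).natAbs : ℕ) ≤ 4 * D ^ 2 := by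
          rw [Int.natAbs_mul, sq]
          have := Nat.mul_le_mul (hD d hd) (hD e he)
          omega
        have h4 : |∑ n ∈ I, psi (d * e) n| ≤ 4 * D ^ 2 := by
          refine h2.trans ?_
          exact_mod_cast h3
        rw [← Int.cast_abs]
        exact_mod_cast h4
      rw [hremeq, abs_div, abs_of_pos hκpos, div_le_iff₀ hκpos, abs_le]
      have hup := quad_form_le S c K' (by positivity) hdiag hoff
      have hdiag' : ∀ d ∈ S, |(-K' d d)| ≤ 1 := fun d hd => by rw [abs_neg]; exact hdiag d hd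
      have hoff' : ∀ d ∈ S, ∀ e ∈ S, d ≠ e → |(-K' d e)| ≤ 4 * D ^ 2 :=
        fun d hd e he hne => by rw [abs_neg]; exact hoff d hd e he hne
      have hlow := quad_form_le S c (fun d e => -K' d e) (by positivity) hdiag' hoff'
      simp only [mul_neg, Finset.sum_neg_distrib] at hlow
      constructor
      · linarith
      · exact hup
    have hsel := sdata_bound (z := z) (N := N) (w := w) (hw := hw0) hz hR1 hrem
    -- split the sum over primes
    have hpt : ∀ p, (∑ d ∈ S, c d * psi d p) ^ 2 ≤ κ * w p := by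
      intro p
      rw [hw]
      simp only
      rw [mul_div_cancel₀ _ hκpos.ne']
      exact sq_le_kern S c p
    have htriv : ∀ p, (∑ d ∈ S, c d * psi d p) ^ 2 ≤ S.card * κ := by
      intro p
      refine (sq_sum_le_card_mul_sum_sq (s := S) (f := fun d => c d * psi d p)).trans ?_
      refine mul_le_mul_of_nonneg_left ?_ (by positivity)
      refine Finset.sum_le_sum fun d _ => ?_
      rw [mul_pow]
      have : (psi d p : ℝ) ^ 2 ≤ 1 := by
        rcases psi_trichotomy d p with h | h | h <;> rw [h] <;> norm_num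
      nlinarith [sq_nonneg (c d)]
    have hsplit : ∑ p ∈ oddPrimes N, (∑ d ∈ S, c d * psi d p) ^ 2
        ≤ ∑ p ∈ range (z + 1), S.card * κ + κ * (sdata z N w hw0).siftedSum := by
      rw [← Finset.sum_filter_add_sum_filter_not (oddPrimes N) (fun p => p ≤ z)]
      refine add_le_add ?_ ?_
      · refine (Finset.sum_le_sum fun p _ => htriv p).trans ?_
        refine Finset.sum_le_sum_of_subset_of_nonneg ?_ (fun _ _ _ => by positivity)
        intro p hp
        rw [mem_filter] at hp
        rw [mem_range]; omega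
      · refine (Finset.sum_le_sum fun p _ => hpt p).trans ?_
        rw [← Finset.mul_sum]
        refine mul_le_mul_of_nonneg_left ?_ hκ0
        rw [BoundingSieve.siftedSum]
        change _ ≤ ∑ d ∈ Icc 1 N, if Nat.Coprime (∏ p ∈ allPrimes z, p) d then w d else 0
        rw [← Finset.sum_filter]
        refine Finset.sum_le_sum_of_subset_of_nonneg ?_ (fun n _ _ => hw0 n)
        intro p hp
        rw [mem_filter, mem_oddPrimes] at hp
        rw [mem_filter, mem_Icc]
        refine ⟨⟨hp.1.2.1.one_le, hp.1.1⟩, ?_⟩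
        apply Nat.Coprime.prod_left
        intro q hq
        rw [mem_allPrimes] at hq
        rw [Nat.coprime_primes hq.2 hp.1.2.1]
        omega
    refine hsplit.trans ?_
    rw [Finset.sum_const, card_range, nsmul_eq_mul]
    have hzz : ((z + 1 : ℕ) : ℝ) * S.card ≤ (z : ℝ) ^ 36 * R ^ 2 := by
      have hz2 : (2 : ℝ) ≤ z := by exact_mod_cast hz
      by_cases hSe : S.card = 0
      · rw [hSe]; simp; positivity
      · have hne : S.Nonempty := Finset.card_ne_zero.mp hSe
        obtain ⟨d, hd⟩ := hne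
        have hD1 : 1 ≤ D := by
          have h1 := hD d hd
          have h2 := Int.natAbs_pos.mpr (hS d hd).ne_zero
          omega
        have hD1' : (1 : ℝ) ≤ D := by exact_mod_cast hD1
        have hSR : (S.card : ℝ) ≤ R := by
          rw [hR]
          have : (1 : ℝ) ≤ (D : ℝ) ^ 2 := one_le_pow₀ hD1'
          have h0 : (0 : ℝ) ≤ S.card := Nat.cast_nonneg _
          nlinarith
        have h1 : ((z + 1 : ℕ) : ℝ) ≤ (z : ℝ) ^ 36 := by
          push_cast
          calc (z : ℝ) + 1 ≤ (z : ℝ) ^ 2 := by nlinarith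
            _ ≤ (z : ℝ) ^ 36 := pow_le_pow_right₀ (by linarith) (by norm_num)
        have h2 : (S.card : ℝ) ≤ R ^ 2 := hSR.trans (by nlinarith)
        exact mul_le_mul h1 h2 (Nat.cast_nonneg _) (by positivity)
    calc ((z + 1 : ℕ) : ℝ) * (S.card * κ) + κ * (sdata z N w hw0).siftedSum
        ≤ ((z : ℝ) ^ 36 * R ^ 2) * κ + κ * (2 * N / Real.log z + (z : ℝ) ^ 36 * R ^ 2) := by
          refine add_le_add ?_ (mul_le_mul_of_nonneg_left hsel hκ0)
          rw [← mul_assoc]
          exact mul_le_mul_of_nonneg_right hzz hκ0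
      _ = _ := by ring

/-- **Large range.** -/
lemma large_range (S : Finset ℤ) (hS : ∀ d ∈ S, Squarefree d) {D : ℕ}
    (hD : ∀ d ∈ S, d.natAbs ≤ D) {F : ℕ → ℝ} {B : ℝ} (hB : ∀ p, |F p| ≤ B) (N z : ℕ)
    (hz : 2 ≤ z) :
    ∑ d ∈ S, tsum' F N d ^ 2
      ≤ B ^ 2 * (oddPrimes N).card *
        (2 * N / Real.log z + 2 * ((z : ℝ) ^ 36 * (1 + 4 * D ^ 2 * S.card) ^ 2)) := by
  have hB0 : 0 ≤ B := (abs_nonneg _).trans (hB 0)
  set P := oddPrimes N with hP
  set c : ℤ → ℝ := fun d => tsum' F N d with hc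
  set X := ∑ d ∈ S, c d ^ 2 with hX
  have hX0 : 0 ≤ X := Finset.sum_nonneg fun d _ => sq_nonneg _
  have hlog : 0 < Real.log z := Real.log_pos (by exact_mod_cast hz)
  set V := 2 * N / Real.log z + 2 * ((z : ℝ) ^ 36 * (1 + 4 * D ^ 2 * S.card) ^ 2) with hV
  have hV0 : 0 ≤ V := by positivity
  have h1 : X = ∑ p ∈ P, F p * ∑ d ∈ S, c d * psi d p := by
    have : ∀ d ∈ S, c d ^ 2 = ∑ p ∈ P, F p * (c d * psi d p) := by
      intro d _
      calc c d ^ 2 = c d * ∑ p ∈ P, F p * psi d p := by rw [sq]; rfl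
        _ = _ := by
          rw [Finset.mul_sum]
          exact Finset.sum_congr rfl fun p _ => by ring
    rw [hX, Finset.sum_congr rfl this, Finset.sum_comm]
    refine Finset.sum_congr rfl fun p _ => ?_
    rw [Finset.mul_sum]
  have h2 : X ^ 2 ≤ (B ^ 2 * P.card * V) * X := by
    calc X ^ 2 ≤ (∑ p ∈ P, F p ^ 2) * ∑ p ∈ P, (∑ d ∈ S, c d * psi d p) ^ 2 := by
          rw [h1]; exact Finset.sum_mul_sq_le_sq_mul_sq _ _ _
      _ ≤ (P.card * B ^ 2) * (V * X) := by
          refine mul_le_mul ?_ (sieve_sum_le S hS hD c N z hz)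
            (Finset.sum_nonneg fun _ _ => sq_nonneg _) (by positivity)
          calc ∑ p ∈ P, F p ^ 2 ≤ ∑ p ∈ P, B ^ 2 := by
                refine Finset.sum_le_sum fun p _ => ?_
                rw [← sq_abs]
                exact pow_le_pow_left₀ (abs_nonneg _) (hB p) 2
            _ = P.card * B ^ 2 := by rw [Finset.sum_const, nsmul_eq_mul]
      _ = _ := by ring
  change X ≤ _
  rcases hX0.eq_or_lt with h0 | h0
  · rw [← h0]; positivity
  · rw [sq] at h2
    exact le_of_mul_le_mul_right h2 h0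

end Pool.Agent.HyperWeil
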